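import Pool.Agent.Helper93.PL.St

namespace Pool.Agent.Helper38.PL

open Finset Pool.Agent.Helper61.PV

private lemma exists_filter {α : Type*} (s : Finset α) (P : α → Prop) :
    ∃ t : Finset α, (∀ x, x ∈ t ↔ (x ∈ s ∧ P x)) ∧ Nat.card {x : α // x ∈ s ∧ P x} = #t := by
  classical
  have h : ∀ x : α, x ∈ s.filter P ↔ (x ∈ s ∧ P x) := by
    intro x
    rw [Finset.mem_filter]
  exact ⟨s.filter P, h, by rw [← Nat.subtype_card _ h]⟩

theorem hCls : Pool.Agent.Helper93.PL.StCls := by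
  classical
  intro W H d κ hW A h hB Q
  have hW0 : (W : ℤ) ≠ 0 := by
    have : 1 ≤ (W : ℤ) := by exact_mod_cast hW
    omega
  have hWp : (0 : ℤ) < W := by exact_mod_cast hW
  set PF : Finset (Fin (d + 1) → ℤ) := Fintype.piFinset (fun _ : Fin (d + 1) => Ico (0 : ℤ) W) with hPF
  -- the set on the left
  obtain ⟨S, hS, hSc⟩ := exists_filter (Bxx d H)
    (fun c => κ * H ≤ ((c (Fin.last d) : ℤ) : ℝ) ∧ Q c)
  rw [hSc]
  have hsum : ∀ F ∈ PF, Nat.card {g : Fin (d + 1) → ℤ // g ∈ Bx (A F) (h F) ∧ Q (lin W F g)} =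
      #(S.filter (fun c => (fun i => c i % (W : ℤ)) = F)) := by
    intro F hF
    obtain ⟨T, hT, hTc⟩ := exists_filter (Bx (A F) (h F)) (fun g => Q (lin W F g))
    rw [hTc]
    refine Finset.card_bij (fun g _ => lin W F g) ?_ ?_ ?_
    · intro g hg
      obtain ⟨hg1, hg2⟩ := (hT g).1 hg
      obtain ⟨h1, h2⟩ := (hB F hF g).1 hg1
      rw [Finset.mem_filter]
      refine ⟨(hS _).2 ⟨h1, h2, hg2⟩, ?_⟩
      funext i
      have hFi := (Fintype.mem_piFinset.1 hF) i
      rw [Finset.mem_Ico] at hFi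
      show (F i + W * g i) % (W : ℤ) = F i
      rw [Int.add_mul_emod_self_left]
      exact Int.emod_eq_of_lt hFi.1 hFi.2
    · intro g1 _ g2 _ he
      funext i
      have := congrFun he i
      have h3 : F i + (W : ℤ) * g1 i = F i + (W : ℤ) * g2 i := this
      have h4 : (W : ℤ) * g1 i = (W : ℤ) * g2 i := by linarith
      exact mul_left_cancel₀ hW0 h4
    · intro c hc
      rw [Finset.mem_filter] at hc
      obtain ⟨hc0, hc4⟩ := hc
      obtain ⟨hc1, hc2, hc3⟩ := (hS c).1 hc0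
      have hlin : lin W F (fun i => c i / (W : ℤ)) = c := by
        funext i
        have := congrFun hc4 i
        show F i + (W : ℤ) * (c i / (W : ℤ)) = c i
        rw [← this]
        exact Int.emod_add_mul_ediv (c i) W
      refine ⟨fun i => c i / (W : ℤ), ?_, hlin⟩
      refine (hT _).2 ⟨(hB F hF _).2 ?_, ?_⟩
      · rw [hlin]; exact ⟨hc1, hc2⟩
      · rw [hlin]; exact hc3
  rw [Finset.sum_congr rfl hsum]
  refine Finset.card_eq_sum_card_fiberwise ?_
  intro c _
  rw [Finset.mem_coe, hPF, Fintype.mem_piFinset]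
  intro i
  rw [Finset.mem_Ico]
  exact ⟨Int.emod_nonneg _ hW0, Int.emod_lt_of_pos _ hWp⟩

end Pool.Agent.Helper38.PL
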