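import Pool.Agent.Helper93.PL.St

set_option autoImplicit false

namespace Pool.Agent.Helper38.PL

open Finset
open Pool.Agent.Helper61.PV
open Pool.Agent.Helper93.PL

private theorem ratio (n : ℕ) (hn : n ≠ 0) :
    (n : ℝ) / Nat.totient n = ∏ p ∈ n.primeFactors, (1 + 1 / ((p : ℝ) - 1)) := by
  have h1 : (Nat.totient n : ℝ) = n * ∏ p ∈ n.primeFactors, (1 - (p : ℝ)⁻¹) := by
    have h := Nat.totient_eq_mul_prod_factors n
    have h2 : ((Nat.totient n : ℚ) : ℝ) = ((n * ∏ p ∈ n.primeFactors, (1 - (p : ℚ)⁻¹) : ℚ) : ℝ) := by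
      rw [h]
    push_cast at h2
    exact h2
  have h3 : (∏ p ∈ n.primeFactors, (1 - (p : ℝ)⁻¹)) * ∏ p ∈ n.primeFactors, (1 + 1 / ((p : ℝ) - 1)) = 1 := by
    rw [← Finset.prod_mul_distrib]
    refine Finset.prod_eq_one fun p hp => ?_
    have hp2 : (2 : ℝ) ≤ p := by exact_mod_cast (Nat.prime_of_mem_primeFactors hp).two_le
    have h4 : (p : ℝ) ≠ 0 := by linarith
    have h5 : (p : ℝ) - 1 ≠ 0 := by linarith
    field_simp
    ring
  have hn' : (n : ℝ) ≠ 0 := by exact_mod_cast hn
  have h6 : (∏ p ∈ n.primeFactors, (1 - (p : ℝ)⁻¹)) ≠ 0 := left_ne_zero_of_mul_eq_one h3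
  rw [h1, div_eq_iff (mul_ne_zero hn' h6)]
  calc (n : ℝ) = n * 1 := (mul_one _).symm
    _ = n * ((∏ p ∈ n.primeFactors, (1 - (p : ℝ)⁻¹)) *
        ∏ p ∈ n.primeFactors, (1 + 1 / ((p : ℝ) - 1))) := by rw [h3]
    _ = _ := by ring

private theorem fac_ge (p : ℕ) (hp : 2 ≤ p) : (1 : ℝ) ≤ 1 + 1 / ((p : ℝ) - 1) := by
  have hp2 : (2 : ℝ) ≤ p := by exact_mod_cast hp
  have h5 : 0 < (p : ℝ) - 1 := by linarith
  have : 0 < 1 / ((p : ℝ) - 1) := by positivity
  linarith

private theorem one_le_prd {ι : Type} (s : Finset ι) (f : ι → ℝ) (h : ∀ i ∈ s, 1 ≤ f i) :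
    1 ≤ ∏ i ∈ s, f i := by
  have h1 := Finset.prod_le_prod (s := s) (f := fun _ => (1 : ℝ)) (g := f)
    (fun _ _ => zero_le_one) h
  simpa using h1

private theorem rho_ge (w h : ℕ) : 1 ≤ rho w h := by
  unfold rho
  refine one_le_prd _ _ fun p hp => ?_
  exact fac_ge p (Nat.prime_of_mem_primeFactors (Finset.mem_filter.1 hp).1).two_le

private theorem rho_one (w : ℕ) : rho w 1 = 1 := by
  unfold rho
  simp

private theorem rho_mul (w a b : ℕ) (ha : a ≠ 0) (hb : b ≠ 0) :
    rho w (a * b) ≤ rho w a * rho w b := by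
  unfold rho
  rw [Nat.primeFactors_mul ha hb, Finset.filter_union, ← Finset.prod_union_inter]
  refine le_mul_of_one_le_right (Finset.prod_nonneg fun p hp => ?_) ?_
  · have hp' : 2 ≤ p := by
      rcases Finset.mem_union.1 hp with h | h
      · exact (Nat.prime_of_mem_primeFactors (Finset.mem_filter.1 h).1).two_le
      · exact (Nat.prime_of_mem_primeFactors (Finset.mem_filter.1 h).1).two_le
    linarith [fac_ge p hp']
  · refine one_le_prd _ _ fun p hp => ?_
    exact fac_ge p (Nat.prime_of_mem_primeFactors (Finset.mem_filter.1 (Finset.mem_inter.1 hp).1).1).two_le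

private theorem rho_prod (w : ℕ) {ι : Type} (s : Finset ι) (f : ι → ℕ) (hf : ∀ i ∈ s, f i ≠ 0) :
    rho w (∏ i ∈ s, f i) ≤ ∏ i ∈ s, rho w (f i) := by
  classical
  induction s using Finset.induction_on with
  | empty => simp [rho_one]
  | insert i s hi ih =>
    rw [Finset.prod_insert hi, Finset.prod_insert hi]
    have h1 := ih fun j hj => hf j (Finset.mem_insert_of_mem hj)
    refine (rho_mul w _ _ (hf i (Finset.mem_insert_self i s)) ?_).trans ?_
    · exact Finset.prod_ne_zero_iff.2 fun j hj => hf j (Finset.mem_insert_of_mem hj)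
    · exact mul_le_mul_of_nonneg_left h1 (by linarith [rho_ge w (f i)])

private theorem split (w q : ℕ) (hq : q ≠ 0) :
    (((primorial w * q : ℕ) : ℝ) / Nat.totient (primorial w * q)) =
      ((primorial w : ℝ) / Nat.totient (primorial w)) * rho w q := by
  have hW : primorial w ≠ 0 := (primorial_pos w).ne'
  rw [ratio _ (mul_ne_zero hW hq), ratio _ hW, Nat.primeFactors_mul hW hq]
  have h1 : (primorial w).primeFactors ∪ q.primeFactors =
      (primorial w).primeFactors ∪ q.primeFactors.filter (fun p => w < p) := by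
    ext p
    simp only [Finset.mem_union, Finset.mem_filter]
    constructor
    · rintro (h | h)
      · exact Or.inl h
      · by_cases hw : w < p
        · exact Or.inr ⟨h, hw⟩
        · left
          have hp := Nat.prime_of_mem_primeFactors h
          exact Nat.mem_primeFactors.2 ⟨hp, hp.dvd_primorial_iff.2 (not_lt.1 hw), hW⟩
    · rintro (h | h)
      · exact Or.inl h
      · exact Or.inr h.1
  rw [h1, Finset.prod_union]
  · rfl
  · rw [Finset.disjoint_left]
    intro p hp hp2
    have h2 := Nat.mem_primeFactors.1 hp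
    have h3 := h2.1.dvd_primorial_iff.1 h2.2.1
    exact absurd (Finset.mem_filter.1 hp2).2 (not_lt.2 h3)

theorem hRh2 : StRh2 := by
  intro w T
  obtain ⟨c, hc⟩ : ∃ c : ℝ, c = (primorial w : ℝ) / Nat.totient (primorial w) := ⟨_, rfl⟩
  have hc0 : 0 ≤ c := by
    rw [hc]
    positivity
  have hqs : ∀ m : ℕ, qs T m ≠ 0 := by
    intro m
    unfold qs
    refine Finset.prod_ne_zero_iff.2 fun i hi => ?_
    have := (Finset.mem_filter.1 hi).2
    omega
  have hsg : sg (primorial w) T = c ^ #T * ∏ m ∈ T, rho w (qs T m) := by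
    unfold sg
    rw [← Finset.prod_const, ← Finset.prod_mul_distrib]
    refine Finset.prod_congr rfl fun m _ => ?_
    rw [split w _ (hqs m), hc]
  rw [← hc, hsg]
  constructor
  · refine le_mul_of_one_le_right (pow_nonneg hc0 _) ?_
    exact one_le_prd _ _ fun m _ => rho_ge w _
  · refine mul_le_mul_of_nonneg_left ?_ (pow_nonneg hc0 _)
    refine Finset.prod_le_prod (fun m _ => by linarith [rho_ge w (qs T m)]) fun m _ => ?_
    unfold qs
    refine rho_prod w _ _ fun i hi => ?_
    have := (Finset.mem_filter.1 hi).2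
    omega

end Pool.Agent.Helper38.PL
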